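import Pool.Agent.MP_959d67_pr.H33.Lower

set_option autoImplicit false
set_option linter.unusedSectionVars false

namespace Pool.Agent.MP_959d67_pr.H33

open Finset

theorem EK_card_ge {V : Type} [Fintype V] {G : SimpleGraph V} {K A B : Finset V}
    (hK : ∀ x ∈ K, ∀ y ∈ K, x ≠ y → G.Adj x y) (hA : A ⊆ K) (hB : B ⊆ K) (h : Disjoint A B) :
    A.card * B.card ≤ (EK G K).card := by
  classical
  rw [← card_cross h]
  apply card_le_card
  intro e he
  obtain ⟨⟨x, y⟩, hxy, rfl⟩ := (@mem_image _ _ (_) _ _ _).mp he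
  obtain ⟨hx, hy⟩ := mem_product.mp hxy
  exact mk_mem_EK hK (hA hx) (hB hy) fun h' => disjoint_left.mp h hx (h' ▸ hy)

theorem EK_card_le {V : Type} [Fintype V] (G : SimpleGraph V) (K : Finset V) :
    (EK G K).card ≤ Fintype.card V * Fintype.card V := by
  classical
  have : EK G K ⊆ (univ : Finset (V × V)).image fun q => s(q.1, q.2) := by
    intro e _
    induction e using Sym2.ind with
    | h x y => exact mem_image.mpr ⟨(x, y), mem_univ _, rfl⟩
  refine (card_le_card this).trans (card_image_le.trans ?_)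
  simp

/-- two cliques on `2h+1` vertices joined by a path with `L` edges -/
def GG (h L : ℕ) : SimpleGraph (Fin (4 * h + L + 1)) where
  Adj x y := x ≠ y ∧ ((x.val ≤ 2 * h ∧ y.val ≤ 2 * h) ∨ (2 * h + L ≤ x.val ∧ 2 * h + L ≤ y.val) ∨
    (2 * h ≤ x.val ∧ x.val + 1 = y.val ∧ y.val ≤ 2 * h + L) ∨
    (2 * h ≤ y.val ∧ y.val + 1 = x.val ∧ x.val ≤ 2 * h + L))
  symm := ⟨fun x y hxy => ⟨hxy.1.symm, by have := hxy.2; omega⟩⟩
  loopless := ⟨fun x hx => hx.1 rfl⟩

/-- an interval of `h` vertices -/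
def blk (h L o : ℕ) (ho : o + h ≤ 4 * h + L + 1) : Finset (Fin (4 * h + L + 1)) :=
  (univ : Finset (Fin h)).map ⟨fun i => ⟨o + i.val, by have := i.2; omega⟩, fun i j hij => by
    simp only [Fin.mk.injEq] at hij
    exact Fin.ext (by omega)⟩

theorem card_blk (h L o : ℕ) (ho : o + h ≤ 4 * h + L + 1) : (blk h L o ho).card = h := by
  simp [blk]

theorem mem_blk {h L o : ℕ} {ho : o + h ≤ 4 * h + L + 1} {x : Fin (4 * h + L + 1)}
    (hx : x ∈ blk h L o ho) : o ≤ x.val ∧ x.val < o + h := by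
  obtain ⟨i, -, rfl⟩ := mem_map.mp hx
  have := i.2
  simp only [Function.Embedding.coeFn_mk]
  omega

theorem exists_setup (h L : ℕ) (hL : 0 < L) :
    ∃ (K1 K2 : Finset (Fin (4 * h + L + 1))) (p : ℕ → Fin (4 * h + L + 1))
      (lev : Fin (4 * h + L + 1) → ℕ), Setup (GG h L) K1 K2 p L lev ∧
      h * h ≤ (EK (GG h L) K1).card ∧ h * h ≤ (EK (GG h L) K2).card := by
  let K1 : Finset (Fin (4 * h + L + 1)) := univ.filter fun x => x.val ≤ 2 * h
  let K2 : Finset (Fin (4 * h + L + 1)) := univ.filter fun x => 2 * h + L ≤ x.val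
  have m1 : ∀ x, x ∈ K1 ↔ x.val ≤ 2 * h := fun x => by simp [K1]
  have m2 : ∀ x, x ∈ K2 ↔ 2 * h + L ≤ x.val := fun x => by simp [K2]
  have c1 : ∀ x ∈ K1, ∀ y ∈ K1, x ≠ y → (GG h L).Adj x y := fun x hx y hy hne =>
    ⟨hne, Or.inl ⟨(m1 x).mp hx, (m1 y).mp hy⟩⟩
  have c2 : ∀ x ∈ K2, ∀ y ∈ K2, x ≠ y → (GG h L).Adj x y := fun x hx y hy hne =>
    ⟨hne, Or.inr (Or.inl ⟨(m2 x).mp hx, (m2 y).mp hy⟩)⟩
  refine ⟨K1, K2, fun i => ⟨2 * h + min i L, by omega⟩, fun x => min (x.val - 2 * h) L,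
    ⟨hL, c1, c2, ?_, ?_, ?_, ?_, ?_, ?_, ?_⟩, ?_, ?_⟩
  · rw [m1]; simp
  · rw [m2]; simp
  · intro x hx
    have := (m1 x).mp hx
    show min (x.val - 2 * h) L = 0
    omega
  · intro x hx
    have := (m2 x).mp hx
    show min (x.val - 2 * h) L = L
    omega
  · intro i hi
    show min (2 * h + min i L - 2 * h) L = i
    omega
  · intro i hi
    refine ⟨fun he => ?_, Or.inr (Or.inr (Or.inl ?_))⟩
    · simp only [Fin.mk.injEq] at he
      omega
    · show 2 * h ≤ 2 * h + min i L ∧ 2 * h + min i L + 1 = 2 * h + min (i + 1) L ∧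
        2 * h + min (i + 1) L ≤ 2 * h + L
      omega
  · rintro x y ⟨-, h1 | h1 | h1 | h1⟩
    · exact Or.inl ⟨(m1 x).mpr h1.1, (m1 y).mpr h1.2⟩
    · exact Or.inr (Or.inl ⟨(m2 x).mpr h1.1, (m2 y).mpr h1.2⟩)
    · refine Or.inr (Or.inr ⟨x.val - 2 * h, by omega, Sym2.eq_iff.mpr (Or.inl ⟨?_, ?_⟩)⟩)
      · apply Fin.ext
        show x.val = 2 * h + min (x.val - 2 * h) L
        omega
      · apply Fin.ext
        show y.val = 2 * h + min (x.val - 2 * h + 1) L
        omega
    · refine Or.inr (Or.inr ⟨y.val - 2 * h, by omega, Sym2.eq_iff.mpr (Or.inr ⟨?_, ?_⟩)⟩)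
      · apply Fin.ext
        show x.val = 2 * h + min (y.val - 2 * h + 1) L
        omega
      · apply Fin.ext
        show y.val = 2 * h + min (y.val - 2 * h) L
        omega
  · have := EK_card_ge (A := blk h L 0 (by omega)) (B := blk h L h (by omega)) c1
      (fun x hx => (m1 x).mpr (by have := mem_blk hx; omega))
      (fun x hx => (m1 x).mpr (by have := mem_blk hx; omega))
      (disjoint_left.mpr fun x hx hx' => by have := mem_blk hx; have := mem_blk hx'; omega)
    rwa [card_blk, card_blk] at this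
  · have := EK_card_ge (A := blk h L (2 * h + L) (by omega)) (B := blk h L (3 * h + L) (by omega)) c2
      (fun x hx => (m2 x).mpr (by have := mem_blk hx; omega))
      (fun x hx => (m2 x).mpr (by have := mem_blk hx; omega))
      (disjoint_left.mpr fun x hx hx' => by have := mem_blk hx; have := mem_blk hx'; omega)
    rwa [card_blk, card_blk] at this

theorem exp_24 : (11000000000 : ℝ) ≤ Real.exp 24 := by
  have h := Real.exp_one_gt_d9
  have h2 : Real.exp 24 = Real.exp 1 ^ 24 := by rw [← Real.exp_nat_mul]; norm_num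
  rw [h2]
  calc (11000000000 : ℝ) ≤ 2.7 ^ 24 := by norm_num
    _ ≤ _ := pow_le_pow_left₀ (by norm_num) (by linarith) _

theorem final {V : Type} [Fintype V] {G : SimpleGraph V} {K1 K2 : Finset V} {p : ℕ → V} {L : ℕ}
    {lev : V → ℕ} (h : Setup G K1 K2 p L lev) {q : ℕ} (hL : L = q * 20)
    (hq : (q : ℝ) = 500000000) (hN : (Fintype.card V : ℝ) ≤ 11000000000)
    (h1 : (250000000000 : ℝ) ≤ (EK G K1).card) (h2 : (250000000000 : ℝ) ≤ (EK G K2).card) :
    finalProb G (1 / 1000000000000) (evA G K1 K2) < finalProb G (2 / 1000000000) (evA G K1 K2) := by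
  have hL' : (L : ℝ) = 10000000000 := by rw [hL]; push_cast; rw [hq]; norm_num
  have e24 := exp_24
  have e48 : Real.exp 48 = Real.exp 24 * Real.exp 24 := by rw [← Real.exp_add]; norm_num
  have hN0 : (0 : ℝ) ≤ Fintype.card V := Nat.cast_nonneg _
  have hE : ∀ K : Finset V, Hn (EK G K).card ≤ 1 + 48 := fun K => by
    apply Hn_le (by norm_num)
    have : ((EK G K).card : ℝ) ≤ Fintype.card V * Fintype.card V := by
      exact_mod_cast EK_card_le G K
    rw [e48]
    exact this.trans (mul_le_mul (hN.trans e24) (hN.trans e24) hN0 (Real.exp_pos _).le)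
  have hK : ∀ K : Finset V, Hn K.card ≤ 1 + 24 := fun K => by
    apply Hn_le (by norm_num)
    have : (K.card : ℝ) ≤ Fintype.card V := by exact_mod_cast card_le_univ K
    linarith
  have hHL : Hn L ≤ 1 + 24 := Hn_le (by norm_num) (by linarith)
  have lo := lower_A h (β := 2 / 1000000000) (by norm_num) (B := 148 / 1000000000) (by norm_num)
    (by linarith [hE K1, hK K1]) (by linarith [hE K2, hK K2])
  have up := upper_A h (α := 1 / 1000000000000) (by norm_num)
    (by intro h0; rw [h0] at h1; norm_num at h1) (by intro h0; rw [h0] at h2; norm_num at h2)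
  have hpow : (1 + 2 / 1000000000 : ℝ)⁻¹ ^ L ≤ 1 / 1000000 := by
    have b1 : (2 : ℝ) ≤ (1 + 2 / 1000000000) ^ q := by
      have := one_add_mul_le_pow (a := (2 / 1000000000 : ℝ)) (by norm_num) q
      rw [hq] at this
      linarith
    have b2 : (2 : ℝ) ^ 20 ≤ (1 + 2 / 1000000000) ^ L := by
      rw [hL, pow_mul]
      exact pow_le_pow_left₀ (by norm_num) b1 _
    rw [inv_pow, one_div]
    exact inv_anti₀ (by norm_num) (le_trans (by norm_num) b2)
  have hpow0 : 0 ≤ (1 + 2 / 1000000000 : ℝ)⁻¹ ^ L := by positivity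
  have t1 : 2 / 1000000000 * Hn (EK G K1).card * (1 + 2 / 1000000000 : ℝ)⁻¹ ^ L ≤
      2 / 1000000000 * 49 * (1 / 1000000) :=
    mul_le_mul (by linarith [hE K1]) hpow hpow0 (by norm_num)
  have t2 : (3 / 5 : ℝ) ≤ phi (1 / 1000000000000 * Fintype.card V) L (EK G K1).card
      (EK G K2).card := by
    unfold phi
    have u1 : (L : ℝ) / (L + (EK G K1).card) ≤ 1 / 26 := by
      rw [div_le_iff₀ (by linarith)]; linarith
    have u2 : (L : ℝ) / (L + (EK G K2).card) ≤ 1 / 26 := by
      rw [div_le_iff₀ (by linarith)]; linarith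
    have u3 : 1 / 1000000000000 * (Fintype.card V : ℝ) * Hn L ≤ 11 / 1000 * 25 :=
      mul_le_mul (by linarith) (by linarith) (Hn_nonneg _) (by norm_num)
    linarith
  have t3 : (1 / 2100000000000 : ℝ) ≤
      1 / 1000000000000 / (2 + 1 / 1000000000000 * Fintype.card V) := by
    rw [le_div_iff₀ (by positivity)]
    linarith
  have t4 := mul_le_mul t3 t2 (by norm_num) (le_trans (by norm_num) t3)
  linarith

end Pool.Agent.MP_959d67_pr.H33
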