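import Mathlib

set_option autoImplicit false

namespace Pool.Agent.MP_959d67_pr.H33

open Classical

variable {V : Type} [Fintype V]

/-- the cluster of `v`: its connected component in the graph of open edges `ω` -/
noncomputable def cluster (ω : Finset (Sym2 V)) (v : V) : Finset V :=
  Finset.univ.filter fun w => (SimpleGraph.fromEdgeSet (ω : Set (Sym2 V))).Reachable v w

/-- in the state `s = (frozen vertices, open edges)`: the closed edges of `G` with both
endpoints warm -/
noncomputable def active (G : SimpleGraph V) (s : Finset V × Finset (Sym2 V)) : Finset (Sym2 V) :=
  Finset.univ.filter fun e => e ∈ G.edgeSet ∧ e ∉ s.2 ∧ ∀ v ∈ e, v ∉ s.1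

/-- the clusters of the warm vertices -/
noncomputable def warmClusters (s : Finset V × Finset (Sym2 V)) : Finset (Finset V) :=
  (Finset.univ.filter fun v => v ∉ s.1).image (cluster s.2)

/-- one step of the jump chain of the rate-`α` PCF process, acting on functions of the state:
each active edge opens with weight `1`, each warm cluster freezes with weight `α`; the states
with all vertices frozen are absorbing -/
noncomputable def step (G : SimpleGraph V) (α : ℝ) (f : Finset V × Finset (Sym2 V) → ℝ)
    (s : Finset V × Finset (Sym2 V)) : ℝ :=
  if s.1 = Finset.univ then f s else
    (∑ e ∈ active G s, f (s.1, insert e s.2) + α * ∑ C ∈ warmClusters s, f (s.1 ∪ C, s.2)) /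
      ((active G s).card + α * (warmClusters s).card)

/-- the probability that the final set of open edges lies in `A`, started from all vertices warm
and all edges closed (each jump opens an edge or freezes a vertex, so the chain is absorbed after
the number of steps used here) -/
noncomputable def finalProb (G : SimpleGraph V) (α : ℝ) (A : Set (Finset (Sym2 V))) : ℝ :=
  (step G α)^[Fintype.card V + Fintype.card (Sym2 V)] (fun s => if s.2 ∈ A then 1 else 0) (∅, ∅)

end Pool.Agent.MP_959d67_pr.H33
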