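import Pool.Agent.MP_959d67_pr.H33.General

set_option autoImplicit false
set_option linter.unusedSectionVars false

namespace Pool.Agent.MP_959d67_pr.H33

open Classical Finset

variable {V : Type} [Fintype V]

/-- the edges of `G` inside `K` -/
noncomputable def EK (G : SimpleGraph V) (K : Finset V) : Finset (Sym2 V) :=
  univ.filter fun e => e ∈ G.edgeSet ∧ ∀ v ∈ e, v ∈ K

theorem mem_EK {G : SimpleGraph V} {K : Finset V} {e : Sym2 V} :
    e ∈ EK G K ↔ e ∈ G.edgeSet ∧ ∀ v ∈ e, v ∈ K := by simp [EK]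

theorem mk_mem_EK {G : SimpleGraph V} {K : Finset V}
    (hK : ∀ x ∈ K, ∀ y ∈ K, x ≠ y → G.Adj x y) {x y : V} (hx : x ∈ K) (hy : y ∈ K)
    (hne : x ≠ y) : s(x, y) ∈ EK G K := by
  rw [mem_EK]
  refine ⟨hK x hx y hy hne, fun v hv => ?_⟩
  rcases Sym2.mem_iff.mp hv with rfl | rfl
  · exact hx
  · exact hy

theorem card_cross {A B : Finset V} (h : Disjoint A B) :
    ((A ×ˢ B).image fun q : V × V => s(q.1, q.2)).card = A.card * B.card := by
  rw [card_image_of_injOn, card_product]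
  rintro ⟨x, y⟩ hxy ⟨x', y'⟩ hxy' he
  simp only [coe_product, Set.mem_prod, mem_coe] at hxy hxy'
  rcases Sym2.eq_iff.mp he with ⟨h1, h2⟩ | ⟨h1, h2⟩
  · exact Prod.ext h1 h2
  · have h3 : x = y' := h1
    exact absurd (h3 ▸ hxy'.2 : x ∈ B) (disjoint_left.mp h hxy.1)

/-- number of closed edges inside `K` -/
noncomputable def aK (G : SimpleGraph V) (K : Finset V) (s : St V) : ℕ := (EK G K \ s.2).card

/-- the part of `K` in the cluster of `u` -/
noncomputable def core (K : Finset V) (u : V) (s : St V) : Finset V := K ∩ cluster s.2 u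

/-- the potential in the pending case -/
noncomputable def wf (G : SimpleGraph V) (K : Finset V) (u : V) (β : ℝ) (s : St V) : ℝ :=
  β * (Hn (aK G K s) + Hn K.card - Hn ((core K u s).card - 1))

/-- the gadget potential -/
noncomputable def ww (G : SimpleGraph V) (K : Finset V) (u : V) (β : ℝ) (s : St V) : ℝ :=
  if aK G K s = 0 then 0 else if ∀ v ∈ K, v ∉ s.1 then wf G K u β s else 1

section

variable {G : SimpleGraph V} {K : Finset V} {u : V} {β : ℝ}

theorem wf_nonneg (hβ : 0 ≤ β) (s : St V) : 0 ≤ wf G K u β s := by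
  have h1 : Hn ((core K u s).card - 1) ≤ Hn K.card :=
    Hn_mono ((Nat.sub_le _ _).trans (card_le_card inter_subset_left))
  have h2 := Hn_nonneg (aK G K s)
  unfold wf
  exact mul_nonneg hβ (by linarith)

theorem wf_le (hβ : 0 ≤ β) (s : St V) : wf G K u β s ≤ β * (Hn (EK G K).card + Hn K.card) := by
  have h1 : Hn (aK G K s) ≤ Hn (EK G K).card := Hn_mono (card_le_card sdiff_subset)
  have h2 := Hn_nonneg ((core K u s).card - 1)
  unfold wf
  exact mul_le_mul_of_nonneg_left (by linarith) hβ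

theorem ww_nonneg (hβ : 0 ≤ β) (s : St V) : 0 ≤ ww G K u β s := by
  unfold ww
  split_ifs
  · exact le_rfl
  · exact wf_nonneg hβ s
  · exact zero_le_one

theorem ww_le_one (hβ : 0 ≤ β) (h1 : β * (Hn (EK G K).card + Hn K.card) ≤ 1) (s : St V) :
    ww G K u β s ≤ 1 := by
  unfold ww
  split_ifs
  · exact zero_le_one
  · exact (wf_le hβ s).trans h1
  · exact le_rfl

theorem ww_le_wf (hβ : 0 ≤ β) (s : St V) (hw : ∀ v ∈ K, v ∉ s.1) :
    ww G K u β s ≤ wf G K u β s := by
  unfold ww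
  split_ifs
  · exact wf_nonneg hβ s
  · exact le_rfl

theorem core_mono (s : St V) (e : Sym2 V) : core K u s ⊆ core K u (s.1, insert e s.2) :=
  inter_subset_inter_left (cluster_mono (subset_insert _ _) u)

theorem ww_edge_le (hβ : 0 ≤ β) (s : St V) (e : Sym2 V) :
    ww G K u β (s.1, insert e s.2) ≤ ww G K u β s := by
  have h1 : aK G K (s.1, insert e s.2) ≤ aK G K s := card_sdiff_insert_le _ _ _
  by_cases h0 : aK G K (s.1, insert e s.2) = 0
  · rw [ww, if_pos h0]; exact ww_nonneg hβ s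
  · have h0' : ¬ aK G K s = 0 := by omega
    rw [ww, ww, if_neg h0, if_neg h0']
    by_cases hw : ∀ v ∈ K, v ∉ s.1
    · rw [if_pos hw, if_pos hw]
      unfold wf
      have h2 := Hn_mono h1
      have h3 : Hn ((core K u s).card - 1) ≤ Hn ((core K u (s.1, insert e s.2)).card - 1) :=
        Hn_mono (Nat.sub_le_sub_right (card_le_card (core_mono s e)) 1)
      exact mul_le_mul_of_nonneg_left (by linarith) hβ
    · rw [if_neg hw, if_neg hw]

theorem ww_freeze_eq (s : St V) (C : Finset V)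
    (h : ¬ (aK G K s ≠ 0 ∧ (∀ v ∈ K, v ∉ s.1) ∧ ∃ v ∈ K, v ∈ C)) :
    ww G K u β (s.1 ∪ C, s.2) = ww G K u β s := by
  have ha : aK G K (s.1 ∪ C, s.2) = aK G K s := rfl
  have hf : wf G K u β (s.1 ∪ C, s.2) = wf G K u β s := rfl
  unfold ww
  rw [ha, hf]
  by_cases h0 : aK G K s = 0
  · rw [if_pos h0, if_pos h0]
  · rw [if_neg h0, if_neg h0]
    by_cases hw : ∀ v ∈ K, v ∉ s.1
    · have hC : ∀ v ∈ K, v ∉ C := fun v hv hvC => h ⟨h0, hw, v, hv, hvC⟩
      rw [if_pos hw, if_pos]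
      intro v hv
      simp only [mem_union, not_or]
      exact ⟨hw v hv, hC v hv⟩
    · rw [if_neg hw, if_neg]
      intro h'
      exact hw fun v hv hvs => h' v hv (mem_union_left _ hvs)

theorem active_inter_EK (s : St V) (hw : ∀ v ∈ K, v ∉ s.1) :
    active G s ∩ EK G K = EK G K \ s.2 := by
  ext e
  simp only [mem_inter, mem_active, mem_EK, mem_sdiff]
  constructor
  · rintro ⟨⟨h1, h2, -⟩, -, h3⟩
    exact ⟨⟨h1, h3⟩, h2⟩
  · rintro ⟨⟨h1, h3⟩, h2⟩
    exact ⟨⟨h1, h2, fun v hv => hw v (h3 v hv)⟩, h1, h3⟩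

theorem ww_super (hβ : 0 ≤ β) (h1 : β * (Hn (EK G K).card + Hn K.card) ≤ 1)
    (hK : ∀ x ∈ K, ∀ y ∈ K, x ≠ y → G.Adj x y) (hu : u ∈ K) (s : St V) :
    ∑ e ∈ active G s ∩ EK G K, (ww G K u β (s.1, insert e s.2) - ww G K u β s) +
      β * ∑ C ∈ warmClusters s, (ww G K u β (s.1 ∪ C, s.2) - ww G K u β s) ≤ 0 := by
  by_cases hp : aK G K s ≠ 0 ∧ ∀ v ∈ K, v ∉ s.1
  swap
  · have e1 : ∑ C ∈ warmClusters s, (ww G K u β (s.1 ∪ C, s.2) - ww G K u β s) = 0 :=
      sum_eq_zero fun C _ => by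
        rw [ww_freeze_eq s C fun h => hp ⟨h.1, h.2.1⟩, sub_self]
    rw [e1, mul_zero, add_zero]
    exact sum_nonpos fun e _ => sub_nonpos.mpr (ww_edge_le hβ s e)
  obtain ⟨ha, hw⟩ := hp
  have hws : ww G K u β s = wf G K u β s := by rw [ww, if_neg ha, if_pos hw]
  set m := (core K u s).card with hm
  have hucore : u ∈ core K u s := mem_inter.mpr ⟨hu, self_mem_cluster _ _⟩
  have hm0 : 0 < m := card_pos.mpr ⟨u, hucore⟩
  have hmK : (K \ core K u s).card = K.card - m := card_sdiff_of_subset inter_subset_left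
  have hmle : m ≤ K.card := card_le_card inter_subset_left
  -- the crossing edges
  let X : Finset (Sym2 V) := ((core K u s) ×ˢ (K \ core K u s)).image fun q : V × V => s(q.1, q.2)
  have hXcard : X.card = m * (K.card - m) := by
    rw [← hmK]; exact card_cross disjoint_sdiff
  have hX : ∀ e ∈ X, e ∈ EK G K \ s.2 ∧ m + 1 ≤ (core K u (s.1, insert e s.2)).card := by
    intro e he
    obtain ⟨⟨x, y⟩, hxy, rfl⟩ := mem_image.mp he
    obtain ⟨hx, hy⟩ := mem_product.mp hxy
    obtain ⟨hyK, hyc⟩ := mem_sdiff.mp hy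
    obtain ⟨hxK, hxc⟩ := mem_inter.mp hx
    have hne : x ≠ y := fun h => hyc (h ▸ hx)
    refine ⟨mem_sdiff.mpr ⟨mk_mem_EK hK hxK hyK hne, fun h => hyc ?_⟩, ?_⟩
    · exact mem_inter.mpr ⟨hyK, mem_cluster_of_edge hxc h⟩
    · apply card_lt_card
      refine ⟨core_mono s _, fun h => hyc (h ?_)⟩
      exact mem_inter.mpr ⟨hyK, mem_cluster_of_edge
        (cluster_mono (subset_insert _ _) u hxc) (mem_insert_self _ _)⟩
  have hedge : ∀ e ∈ EK G K \ s.2, ww G K u β (s.1, insert e s.2) - ww G K u β s ≤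
      -(β * (aK G K s : ℝ)⁻¹) + (if e ∈ X then -(β * (m : ℝ)⁻¹) else 0) := by
    intro e he
    obtain ⟨he1, he2⟩ := mem_sdiff.mp he
    have h2 : aK G K (s.1, insert e s.2) = aK G K s - 1 := card_sdiff_insert he1 he2
    have h3 := Hn_pred (Nat.pos_of_ne_zero ha)
    have h4 := ww_le_wf (G := G) (u := u) hβ (s.1, insert e s.2) hw
    rw [hws]
    unfold wf at h4 ⊢
    rw [h2] at h4
    split_ifs with hx
    · have h5 : Hn m ≤ Hn ((core K u (s.1, insert e s.2)).card - 1) :=
        Hn_mono (by have := (hX e hx).2; omega)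
      have h6 := Hn_pred hm0
      nlinarith
    · have h5 : Hn (m - 1) ≤ Hn ((core K u (s.1, insert e s.2)).card - 1) :=
        Hn_mono (Nat.sub_le_sub_right (card_le_card (core_mono s e)) 1)
      nlinarith
  have hsum1 : ∑ e ∈ active G s ∩ EK G K, (ww G K u β (s.1, insert e s.2) - ww G K u β s) ≤
      -β - β * ((K.card : ℝ) - m) := by
    rw [active_inter_EK s hw]
    refine (sum_le_sum hedge).trans ?_
    rw [sum_add_distrib, sum_const, sum_ite_mem, sum_const,
      inter_eq_right.mpr fun e he => (hX e he).1, hXcard]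
    have ha' : (aK G K s : ℝ) ≠ 0 := by exact_mod_cast ha
    have hm' : (m : ℝ) ≠ 0 := by exact_mod_cast hm0.ne'
    have e1 : (EK G K \ s.2).card = aK G K s := rfl
    rw [e1, nsmul_eq_mul, nsmul_eq_mul, Nat.cast_mul, Nat.cast_sub hmle]
    apply le_of_eq
    field_simp
    ring
  have hsum2 : ∑ C ∈ warmClusters s, (ww G K u β (s.1 ∪ C, s.2) - ww G K u β s) ≤
      1 + ((K.card : ℝ) - m) := by
    let Y : Finset (Finset V) := insert (cluster s.2 u) ((K \ core K u s).image (cluster s.2))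
    have hY : (Y.card : ℝ) ≤ 1 + ((K.card : ℝ) - m) := by
      have : Y.card ≤ (K.card - m) + 1 :=
        (card_insert_le _ _).trans (Nat.add_le_add_right (hmK ▸ card_image_le) 1)
      have h2 : (Y.card : ℝ) ≤ ((K.card - m : ℕ) : ℝ) + 1 := by exact_mod_cast this
      rw [Nat.cast_sub hmle] at h2
      linarith
    have h2 : ∀ C ∈ warmClusters s, ww G K u β (s.1 ∪ C, s.2) - ww G K u β s ≤
        if C ∈ Y then 1 else 0 := by
      intro C hC
      split_ifs with hCY
      · linarith [ww_le_one (u := u) hβ h1 (s.1 ∪ C, s.2), ww_nonneg (G := G) (K := K) (u := u) hβ s]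
      · rw [ww_freeze_eq s C, sub_self]
        rintro ⟨-, -, v, hvK, hvC⟩
        apply hCY
        obtain ⟨w, -, rfl⟩ := mem_warmClusters.mp hC
        rw [← cluster_eq_of_mem hvC]
        by_cases hv : v ∈ core K u s
        · rw [cluster_eq_of_mem (mem_inter.mp hv).2]
          exact mem_insert_self _ _
        · exact mem_insert_of_mem (mem_image_of_mem _ (mem_sdiff.mpr ⟨hvK, hv⟩))
    refine (sum_le_sum h2).trans ?_
    rw [sum_ite_mem, sum_const, nsmul_eq_mul, mul_one]
    exact le_trans (by exact_mod_cast card_le_card inter_subset_right) hY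
  nlinarith [mul_le_mul_of_nonneg_left hsum2 hβ]

end

end Pool.Agent.MP_959d67_pr.H33
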