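import Pool.Agent.MP_959d67_pr.H33.Defs

set_option autoImplicit false
set_option linter.unusedSectionVars false

namespace Pool.Agent.MP_959d67_pr.H33

open Classical Finset

variable {V : Type} [Fintype V]

/-- states -/
abbrev St (V : Type) := Finset V × Finset (Sym2 V)

/-- the generator -/
noncomputable def gen (G : SimpleGraph V) (α : ℝ) (f : St V → ℝ) (s : St V) : ℝ :=
  ∑ e ∈ active G s, (f (s.1, insert e s.2) - f s) +
    α * ∑ C ∈ warmClusters s, (f (s.1 ∪ C, s.2) - f s)

theorem mem_active {G : SimpleGraph V} {s : St V} {e : Sym2 V} :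
    e ∈ active G s ↔ e ∈ G.edgeSet ∧ e ∉ s.2 ∧ ∀ v ∈ e, v ∉ s.1 := by
  simp [active]

theorem mem_warmClusters {s : St V} {C : Finset V} :
    C ∈ warmClusters s ↔ ∃ v, v ∉ s.1 ∧ cluster s.2 v = C := by
  simp [warmClusters]

theorem mem_cluster {ω : Finset (Sym2 V)} {v w : V} :
    w ∈ cluster ω v ↔ (SimpleGraph.fromEdgeSet (ω : Set (Sym2 V))).Reachable v w := by
  simp [cluster]

theorem self_mem_cluster (ω : Finset (Sym2 V)) (v : V) : v ∈ cluster ω v :=
  mem_cluster.mpr (SimpleGraph.Reachable.refl _)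

theorem cluster_eq_of_mem {ω : Finset (Sym2 V)} {v w : V} (h : w ∈ cluster ω v) :
    cluster ω w = cluster ω v := by
  ext x
  rw [mem_cluster] at h
  rw [mem_cluster, mem_cluster]
  exact ⟨fun h' => h.trans h', fun h' => h.symm.trans h'⟩

theorem cluster_mono {ω ω' : Finset (Sym2 V)} (h : ω ⊆ ω') (v : V) :
    cluster ω v ⊆ cluster ω' v := by
  intro w hw
  rw [mem_cluster] at hw ⊢
  exact hw.mono (SimpleGraph.fromEdgeSet_mono (by exact_mod_cast h))

theorem mem_cluster_of_edge {ω : Finset (Sym2 V)} {v x y : V} (hx : x ∈ cluster ω v)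
    (h : s(x, y) ∈ ω) : y ∈ cluster ω v := by
  by_cases hxy : x = y
  · exact hxy ▸ hx
  · rw [mem_cluster] at hx ⊢
    exact hx.trans (SimpleGraph.Adj.reachable
      ((SimpleGraph.fromEdgeSet_adj _).mpr ⟨by exact_mod_cast h, hxy⟩))

theorem card_warmClusters_le (s : St V) : (warmClusters s).card ≤ Fintype.card V :=
  card_image_le.trans (card_le_univ _)

/-- the termination measure -/
noncomputable def meas (s : St V) : ℕ := (univ \ s.1).card + (univ \ s.2).card

theorem compare (G : SimpleGraph V) {α : ℝ} (hα : 0 < α) (σ : ℝ) (F U : St V → ℝ)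
    (hF : ∀ s : St V, (s.2 : Set (Sym2 V)) ⊆ G.edgeSet → s.1 = univ → σ * F s ≤ σ * U s)
    (hU : ∀ s : St V, (s.2 : Set (Sym2 V)) ⊆ G.edgeSet → s.1 ≠ univ → σ * gen G α U s ≤ 0) :
    ∀ n : ℕ, ∀ s : St V, (s.2 : Set (Sym2 V)) ⊆ G.edgeSet → meas s ≤ n →
      σ * (step G α)^[n] F s ≤ σ * U s := by
  intro n
  induction n with
  | zero =>
    intro s hs hm
    apply hF s hs
    have h1 : (univ \ s.1).card = 0 := by unfold meas at hm; omega
    rw [card_eq_zero, sdiff_eq_empty_iff_subset] at h1
    exact eq_univ_iff_forall.mpr fun x => h1 (mem_univ x)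
  | succ n ih =>
    intro s hs hm
    rw [Function.iterate_succ_apply']
    by_cases habs : s.1 = univ
    · have : ∀ k : ℕ, (step G α)^[k] F s = F s := by
        intro k
        induction k with
        | zero => rfl
        | succ k ihk => rw [Function.iterate_succ_apply', step, if_pos habs, ihk]
      rw [step, if_pos habs, this]
      exact hF s hs habs
    · rw [step, if_neg habs]
      obtain ⟨v, hv⟩ : ∃ v, v ∉ s.1 := by
        by_contra h
        push Not at h
        exact habs (eq_univ_iff_forall.mpr h)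
      have hpos : 0 < (warmClusters s).card :=
        card_pos.mpr ⟨_, mem_warmClusters.mpr ⟨v, hv, rfl⟩⟩
      have hden : (0 : ℝ) < (active G s).card + α * (warmClusters s).card := by
        have : (0 : ℝ) < (warmClusters s).card := by exact_mod_cast hpos
        positivity
      rw [← mul_div_assoc, div_le_iff₀ hden]
      have h1 : ∑ e ∈ active G s, σ * (step G α)^[n] F (s.1, insert e s.2) ≤
          ∑ e ∈ active G s, σ * U (s.1, insert e s.2) := by
        refine sum_le_sum fun e he => ih _ ?_ ?_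
        · rw [mem_active] at he
          simp only [coe_insert]
          exact Set.insert_subset he.1 hs
        · rw [mem_active] at he
          have : (univ \ insert e s.2).card < (univ \ s.2).card := by
            apply card_lt_card
            refine ⟨sdiff_subset_sdiff (le_refl _) (subset_insert _ _), fun h => ?_⟩
            have := h (mem_sdiff.mpr ⟨mem_univ e, he.2.1⟩)
            simp at this
          unfold meas at hm ⊢
          simp only
          omega
      have h2 : ∑ C ∈ warmClusters s, σ * (step G α)^[n] F (s.1 ∪ C, s.2) ≤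
          ∑ C ∈ warmClusters s, σ * U (s.1 ∪ C, s.2) := by
        refine sum_le_sum fun C hC => ih _ hs ?_
        obtain ⟨w, hw, rfl⟩ := mem_warmClusters.mp hC
        have : (univ \ (s.1 ∪ cluster s.2 w)).card < (univ \ s.1).card := by
          apply card_lt_card
          refine ⟨sdiff_subset_sdiff (le_refl _) subset_union_left, fun h => ?_⟩
          have := h (mem_sdiff.mpr ⟨mem_univ w, hw⟩)
          simp [self_mem_cluster] at this
        unfold meas at hm ⊢
        simp only
        omega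
      have h3 := hU s hs habs
      unfold gen at h3
      rw [sum_sub_distrib, sum_sub_distrib, sum_const, sum_const, nsmul_eq_mul, nsmul_eq_mul] at h3
      rw [← mul_sum, ← mul_sum] at h1 h2
      nlinarith [mul_le_mul_of_nonneg_left h2 hα.le]

theorem finalProb_le (G : SimpleGraph V) {α : ℝ} (hα : 0 < α) (A : Set (Finset (Sym2 V)))
    (U : St V → ℝ)
    (hF : ∀ s : St V, (s.2 : Set (Sym2 V)) ⊆ G.edgeSet → s.1 = univ →
      (if s.2 ∈ A then 1 else 0) ≤ U s)
    (hU : ∀ s : St V, (s.2 : Set (Sym2 V)) ⊆ G.edgeSet → s.1 ≠ univ → gen G α U s ≤ 0) :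
    finalProb G α A ≤ U (∅, ∅) := by
  have := compare G hα 1 (fun s => if s.2 ∈ A then 1 else 0) U (by simpa using hF)
    (by simpa using hU) (Fintype.card V + Fintype.card (Sym2 V)) (∅, ∅) (by simp) (by simp [meas])
  simpa [finalProb] using this

theorem le_finalProb (G : SimpleGraph V) {α : ℝ} (hα : 0 < α) (A : Set (Finset (Sym2 V)))
    (U : St V → ℝ)
    (hF : ∀ s : St V, (s.2 : Set (Sym2 V)) ⊆ G.edgeSet → s.1 = univ →
      U s ≤ (if s.2 ∈ A then 1 else 0))
    (hU : ∀ s : St V, (s.2 : Set (Sym2 V)) ⊆ G.edgeSet → s.1 ≠ univ → 0 ≤ gen G α U s) :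
    U (∅, ∅) ≤ finalProb G α A := by
  have := compare G hα (-1) (fun s => if s.2 ∈ A then 1 else 0) U
    (fun s h1 h2 => by linarith [hF s h1 h2])
    (by simpa using hU) (Fintype.card V + Fintype.card (Sym2 V)) (∅, ∅) (by simp) (by simp [meas])
  unfold finalProb
  linarith

theorem gen_one_sub (G : SimpleGraph V) (α : ℝ) (U : St V → ℝ) (s : St V) :
    gen G α (fun s => 1 - U s) s = - gen G α U s := by
  unfold gen
  simp only [sum_sub_distrib, sum_const, nsmul_eq_mul]
  ring

/-- real harmonic numbers -/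
noncomputable def Hn (n : ℕ) : ℝ := (harmonic n : ℝ)

theorem Hn_zero : Hn 0 = 0 := by simp [Hn]

theorem Hn_succ (n : ℕ) : Hn (n + 1) = Hn n + ((n : ℝ) + 1)⁻¹ := by
  simp [Hn, harmonic_succ]

theorem Hn_mono : Monotone Hn := monotone_nat_of_le_succ fun n => by
  rw [Hn_succ]
  have : (0 : ℝ) < ((n : ℝ) + 1)⁻¹ := by positivity
  linarith

theorem Hn_nonneg (n : ℕ) : 0 ≤ Hn n := Hn_zero ▸ Hn_mono (Nat.zero_le n)

theorem Hn_pred {n : ℕ} (h : 0 < n) : Hn (n - 1) - Hn n = -(n : ℝ)⁻¹ := by
  obtain ⟨k, rfl⟩ : ∃ k, n = k + 1 := ⟨n - 1, by omega⟩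
  rw [Hn_succ, Nat.add_sub_cancel]
  push_cast
  ring

theorem Hn_le {n : ℕ} {x : ℝ} (hx : 0 ≤ x) (h : (n : ℝ) ≤ Real.exp x) : Hn n ≤ 1 + x := by
  refine (harmonic_le_one_add_log n).trans ?_
  rcases Nat.eq_zero_or_pos n with rfl | hn
  · simpa using hx
  · have : Real.log n ≤ x := (Real.log_le_iff_le_exp (by exact_mod_cast hn)).mpr h
    linarith

theorem card_sdiff_insert {E ω : Finset (Sym2 V)} {e : Sym2 V} (he : e ∈ E) (he' : e ∉ ω) :
    (E \ insert e ω).card = (E \ ω).card - 1 := by
  rw [sdiff_insert, card_erase_of_mem (mem_sdiff.mpr ⟨he, he'⟩)]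

theorem sdiff_insert_of_notMem' {E ω : Finset (Sym2 V)} {e : Sym2 V} (he : e ∉ E) :
    E \ insert e ω = E \ ω := by
  rw [sdiff_insert, erase_eq_of_notMem fun h => he (mem_sdiff.mp h).1]

theorem card_sdiff_insert_le (E ω : Finset (Sym2 V)) (e : Sym2 V) :
    (E \ insert e ω).card ≤ (E \ ω).card :=
  card_le_card (sdiff_subset_sdiff (le_refl _) (subset_insert _ _))

end Pool.Agent.MP_959d67_pr.H33
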