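import Pool.Agent.MP_959d67_pr.H33.Upper

set_option autoImplicit false
set_option linter.unusedSectionVars false

namespace Pool.Agent.MP_959d67_pr.H33

open Classical Finset

variable {V : Type} [Fintype V]

/-- some edge inside `K` is closed and has a frozen endpoint -/
def stuck (G : SimpleGraph V) (K : Finset V) (s : St V) : Prop :=
  ∃ e ∈ EK G K, e ∉ s.2 ∧ ∃ v ∈ e, v ∈ s.1

/-- the bracket in the subsolution -/
noncomputable def phi (γ : ℝ) (c a b : ℕ) : ℝ :=
  1 - (c : ℝ) / (c + a) - (c : ℝ) / (c + b) - γ * Hn c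

/-- the subsolution -/
noncomputable def VV (G : SimpleGraph V) (K1 K2 : Finset V) (p : ℕ → V) (L : ℕ) (α : ℝ)
    (s : St V) : ℝ :=
  if stuck G K1 s ∧ stuck G K2 s then 1
  else if s.1 = ∅ ∧ aK G K1 s ≠ 0 ∧ aK G K2 s ≠ 0 then
    α / (2 + α * Fintype.card V) * phi (α * Fintype.card V) (cP p L s) (aK G K1 s) (aK G K2 s)
  else 0

theorem phi_le_one {γ : ℝ} (hγ : 0 ≤ γ) (c a b : ℕ) : phi γ c a b ≤ 1 := by
  unfold phi
  have h1 : 0 ≤ (c : ℝ) / (c + a) := by positivity
  have h2 : 0 ≤ (c : ℝ) / (c + b) := by positivity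
  have h3 := mul_nonneg hγ (Hn_nonneg c)
  linarith

theorem phi_nonpos {γ : ℝ} (hγ : 0 ≤ γ) {c a b : ℕ} (hc : 0 < c) (h : a = 0 ∨ b = 0) :
    phi γ c a b ≤ 0 := by
  unfold phi
  have h1 : 0 ≤ (c : ℝ) / (c + a) := by positivity
  have h2 : 0 ≤ (c : ℝ) / (c + b) := by positivity
  have h3 := mul_nonneg hγ (Hn_nonneg c)
  have hc' : (c : ℝ) ≠ 0 := by exact_mod_cast hc.ne'
  rcases h with rfl | rfl
  · simp only [Nat.cast_zero, add_zero, div_self hc']; linarith
  · simp only [Nat.cast_zero, add_zero, div_self hc']; linarith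

theorem phi_harm (γ : ℝ) {c a b : ℕ} (hc : 0 < c) (ha : 0 < a) (hb : 0 < b) :
    a * (phi γ c (a - 1) b - phi γ c a b) + b * (phi γ c a (b - 1) - phi γ c a b) +
      c * (phi γ (c - 1) a b - phi γ c a b) = γ := by
  have h := Hn_pred hc
  obtain ⟨c, rfl⟩ : ∃ k, c = k + 1 := ⟨c - 1, by omega⟩
  obtain ⟨a, rfl⟩ : ∃ k, a = k + 1 := ⟨a - 1, by omega⟩
  obtain ⟨b, rfl⟩ : ∃ k, b = k + 1 := ⟨b - 1, by omega⟩
  simp only [Nat.add_sub_cancel] at h ⊢
  unfold phi
  have e : Hn c = Hn (c + 1) - ((c : ℝ) + 1)⁻¹ := by push_cast at h; linarith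
  rw [e]
  push_cast
  field_simp
  ring

section

variable {G : SimpleGraph V} {K K1 K2 : Finset V} {p : ℕ → V} {L : ℕ} {lev : V → ℕ} {α : ℝ}

theorem stuck_edge {s : St V} (h : stuck G K s) {e : Sym2 V} (he : e ∈ active G s) :
    stuck G K (s.1, insert e s.2) := by
  obtain ⟨e', h1, h2, v, hv, hv'⟩ := h
  refine ⟨e', h1, fun h => ?_, v, hv, hv'⟩
  rcases mem_insert.mp h with h | h
  · exact (mem_active.mp he).2.2 v (h ▸ hv) hv'
  · exact h2 h

theorem stuck_freeze {s : St V} (h : stuck G K s) (C : Finset V) : stuck G K (s.1 ∪ C, s.2) := by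
  obtain ⟨e', h1, h2, v, hv, hv'⟩ := h
  exact ⟨e', h1, h2, v, hv, mem_union_left _ hv'⟩

theorem not_stuck {s : St V} (h : s.1 = ∅) : ¬ stuck G K s := by
  rintro ⟨e', -, -, v, -, hv'⟩
  rw [h] at hv'
  exact notMem_empty _ hv'

theorem stuck_of_freeze (hK : ∀ x ∈ K, ∀ y ∈ K, x ≠ y → G.Adj x y) {u w : V} (hu : u ∈ K)
    {s : St V} (ha : aK G K s ≠ 0) (huw : u ∈ cluster s.2 w) :
    stuck G K (s.1 ∪ cluster s.2 w, s.2) := by
  obtain ⟨e, he⟩ := card_pos.mp (Nat.pos_of_ne_zero ha)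
  obtain ⟨he1, he2⟩ := mem_sdiff.mp he
  induction e using Sym2.ind with
  | h x y =>
    by_cases hx : x ∈ cluster s.2 w
    · exact ⟨_, he1, he2, x, Sym2.mem_mk_left _ _, mem_union_right _ hx⟩
    · have hxK : x ∈ K := (mem_EK.mp he1).2 x (Sym2.mem_mk_left _ _)
      have hne : u ≠ x := fun h => hx (h ▸ huw)
      exact ⟨s(u, x), mk_mem_EK hK hu hxK hne, fun h => hx (mem_cluster_of_edge huw h), u,
        Sym2.mem_mk_left _ _, mem_union_right _ huw⟩

theorem VV_nonneg_of {s : St V} (h : ¬ (s.1 = ∅ ∧ aK G K1 s ≠ 0 ∧ aK G K2 s ≠ 0)) :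
    0 ≤ VV G K1 K2 p L α s := by
  rw [VV, if_neg h]
  split_ifs <;> norm_num

theorem VV_freeze_nonneg {s : St V} {C : Finset V} (hC : C ∈ warmClusters s) :
    0 ≤ VV G K1 K2 p L α (s.1 ∪ C, s.2) := by
  apply VV_nonneg_of
  rintro ⟨h, -⟩
  obtain ⟨v, -, rfl⟩ := mem_warmClusters.mp hC
  have : v ∈ (s.1 ∪ cluster s.2 v, s.2).1 := mem_union_right _ (self_mem_cluster _ _)
  rw [h] at this
  exact notMem_empty _ this

theorem gen_VV (h : Setup G K1 K2 p L lev) (hα : 0 < α) (s : St V) :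
    0 ≤ gen G α (VV G K1 K2 p L α) s := by
  by_cases hwon : stuck G K1 s ∧ stuck G K2 s
  · unfold gen
    rw [sum_eq_zero, sum_eq_zero]
    · simp
    · intro C _
      rw [VV, VV, if_pos hwon, if_pos ⟨stuck_freeze hwon.1 C, stuck_freeze hwon.2 C⟩, sub_self]
    · intro e he
      rw [VV, VV, if_pos hwon, if_pos ⟨stuck_edge hwon.1 he, stuck_edge hwon.2 he⟩, sub_self]
  by_cases hp : s.1 = ∅ ∧ aK G K1 s ≠ 0 ∧ aK G K2 s ≠ 0
  swap
  · have h0 : VV G K1 K2 p L α s = 0 := by rw [VV, if_neg hwon, if_neg hp]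
    unfold gen
    rw [h0]
    refine add_nonneg (sum_nonneg fun e _ => ?_) (mul_nonneg hα.le (sum_nonneg fun C hC => ?_))
    · rw [sub_zero]
      apply VV_nonneg_of
      rintro ⟨h1, h2, h3⟩
      have a1 : aK G K1 (s.1, insert e s.2) ≤ aK G K1 s := card_sdiff_insert_le _ _ _
      have a2 : aK G K2 (s.1, insert e s.2) ≤ aK G K2 s := card_sdiff_insert_le _ _ _
      exact hp ⟨h1, by omega, by omega⟩
    · rw [sub_zero]
      exact VV_freeze_nonneg hC
  obtain ⟨hΦ, ha, hb⟩ := hp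
  set γ : ℝ := α * Fintype.card V with hγ
  have hγ0 : 0 ≤ γ := by positivity
  set V0 : ℝ := α / (2 + γ) with hV0
  have hV00 : 0 ≤ V0 := by positivity
  set a := aK G K1 s with ha_def
  set b := aK G K2 s with hb_def
  set c := cP p L s with hc_def
  have hs : VV G K1 K2 p L α s = V0 * phi γ c a b := by
    rw [VV, if_neg hwon, if_pos ⟨hΦ, ha, hb⟩]
  have hw1 : ∀ v ∈ K1, v ∉ s.1 := fun v _ => hΦ ▸ notMem_empty v
  have hw2 : ∀ v ∈ K2, v ∉ s.1 := fun v _ => hΦ ▸ notMem_empty v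
  have ca : (active G s ∩ EK G K1).card = a := by rw [active_inter_EK s hw1]; rfl
  have cb : (active G s ∩ EK G K2).card = b := by rw [active_inter_EK s hw2]; rfl
  have cc : (active G s ∩ PP p L).card = c := by
    rw [hc_def, cP]
    congr 1
    ext e
    simp only [mem_inter, mem_active, mem_sdiff]
    constructor
    · rintro ⟨⟨-, h2, -⟩, h3⟩
      exact ⟨h3, h2⟩
    · rintro ⟨h3, h2⟩
      refine ⟨⟨?_, h2, fun v _ => hΦ ▸ notMem_empty v⟩, h3⟩
      obtain ⟨i, hi, rfl⟩ := mem_PP.mp h3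
      exact h.padj i hi
  -- value after opening an edge
  have hval : ∀ e, VV G K1 K2 p L α (s.1, insert e s.2) =
      if aK G K1 (s.1, insert e s.2) ≠ 0 ∧ aK G K2 (s.1, insert e s.2) ≠ 0 then
        V0 * phi γ (cP p L (s.1, insert e s.2)) (aK G K1 (s.1, insert e s.2))
          (aK G K2 (s.1, insert e s.2)) else 0 := by
    intro e
    rw [VV, if_neg fun h' => not_stuck (s := (s.1, insert e s.2)) hΦ h'.1]
    by_cases h' : aK G K1 (s.1, insert e s.2) ≠ 0 ∧ aK G K2 (s.1, insert e s.2) ≠ 0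
    · rw [if_pos h', if_pos ⟨hΦ, h'⟩]
    · rw [if_neg h', if_neg fun h'' => h' h''.2]
  have hE1 : ∀ e ∈ active G s, e ∈ EK G K1 → aK G K1 (s.1, insert e s.2) = a - 1 ∧
      aK G K2 (s.1, insert e s.2) = b ∧ cP p L (s.1, insert e s.2) = c := fun e he h1 =>
    ⟨card_sdiff_insert h1 (mem_active.mp he).2.1,
      by unfold aK; rw [sdiff_insert_of_notMem' (h.not_EK12 h1)]; rfl,
      by unfold cP; rw [sdiff_insert_of_notMem' fun h' => h.not_EK1 h' h1]; rfl⟩
  have hE2 : ∀ e ∈ active G s, e ∈ EK G K2 → aK G K1 (s.1, insert e s.2) = a ∧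
      aK G K2 (s.1, insert e s.2) = b - 1 ∧ cP p L (s.1, insert e s.2) = c := fun e he h1 =>
    ⟨by unfold aK; rw [sdiff_insert_of_notMem' fun h' => h.not_EK12 h' h1]; rfl,
      card_sdiff_insert h1 (mem_active.mp he).2.1,
      by unfold cP; rw [sdiff_insert_of_notMem' fun h' => h.not_EK2 h' h1]; rfl⟩
  have hE3 : ∀ e ∈ active G s, e ∈ PP p L → aK G K1 (s.1, insert e s.2) = a ∧
      aK G K2 (s.1, insert e s.2) = b ∧ cP p L (s.1, insert e s.2) = c - 1 := fun e he h1 =>
    ⟨by unfold aK; rw [sdiff_insert_of_notMem' (h.not_EK1 h1)]; rfl,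
      by unfold aK; rw [sdiff_insert_of_notMem' (h.not_EK2 h1)]; rfl,
      card_sdiff_insert h1 (mem_active.mp he).2.1⟩
  have hsumgen : ∀ x y z : ℝ,
      (∀ e ∈ active G s, e ∈ EK G K1 → x ≤ VV G K1 K2 p L α (s.1, insert e s.2) - V0 * phi γ c a b) →
      (∀ e ∈ active G s, e ∈ EK G K2 → y ≤ VV G K1 K2 p L α (s.1, insert e s.2) - V0 * phi γ c a b) →
      (∀ e ∈ active G s, e ∈ PP p L → z ≤ VV G K1 K2 p L α (s.1, insert e s.2) - V0 * phi γ c a b) →
      a * x + b * y + c * z ≤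
        ∑ e ∈ active G s, (VV G K1 K2 p L α (s.1, insert e s.2) - V0 * phi γ c a b) := by
    intro x y z hx hy hz
    have : ∀ e ∈ active G s, (if e ∈ EK G K1 then x else 0) + (if e ∈ EK G K2 then y else 0) +
        (if e ∈ PP p L then z else 0) ≤ VV G K1 K2 p L α (s.1, insert e s.2) - V0 * phi γ c a b := by
      intro e he
      rcases h.edge_cases (mem_active.mp he).1 with h1 | h1 | h1
      · rw [if_pos h1, if_neg (h.not_EK12 h1), if_neg fun h' => h.not_EK1 h' h1]
        simpa using hx e he h1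
      · rw [if_neg fun h' => h.not_EK12 h' h1, if_pos h1, if_neg fun h' => h.not_EK2 h' h1]
        simpa using hy e he h1
      · rw [if_neg (h.not_EK1 h1), if_neg (h.not_EK2 h1), if_pos h1]
        simpa using hz e he h1
    have h2 := sum_le_sum this
    rwa [sum_add_distrib, sum_add_distrib, sum_ite_mem, sum_ite_mem, sum_ite_mem, sum_const,
      sum_const, sum_const, ca, cb, cc, nsmul_eq_mul, nsmul_eq_mul, nsmul_eq_mul] at h2
  have hN : ((warmClusters s).card : ℝ) ≤ Fintype.card V := by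
    exact_mod_cast card_warmClusters_le s
  have hphi := phi_le_one hγ0 c a b
  unfold gen
  rw [hs]
  rcases Nat.eq_zero_or_pos c with hc | hc
  · -- the path is fully open
    have hphi1 : ∀ a' b', phi γ c a' b' = 1 := fun a' b' => by simp [phi, hc, Hn_zero]
    have k1 := hsumgen (-(V0 * (a : ℝ)⁻¹)) (-(V0 * (b : ℝ)⁻¹)) 0 ?_ ?_ ?_
    · have hpL : p L ∈ cluster s.2 (p 0) := by
        have hall : ∀ i, i ≤ L → p i ∈ cluster s.2 (p 0) := by
          intro i
          induction i with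
          | zero => intro _; exact self_mem_cluster _ _
          | succ i ih =>
            intro hi
            refine mem_cluster_of_edge (ih (by omega)) ?_
            have hc' : cP p L s = 0 := hc
            rw [cP, card_eq_zero, sdiff_eq_empty_iff_subset] at hc'
            exact hc' (mem_PP.mpr ⟨i, hi, rfl⟩)
        exact hall L le_rfl
      have hmem : cluster s.2 (p 0) ∈ warmClusters s :=
        mem_warmClusters.mpr ⟨p 0, hΦ ▸ notMem_empty _, rfl⟩
      have k2 : 1 ≤ ∑ C ∈ warmClusters s, VV G K1 K2 p L α (s.1 ∪ C, s.2) := by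
        refine le_trans (le_of_eq ?_) (single_le_sum (fun C hC => VV_freeze_nonneg hC) hmem)
        rw [VV, if_pos ⟨stuck_of_freeze h.c1 h.p0 ha (self_mem_cluster _ _),
          stuck_of_freeze h.c2 h.pL hb hpL⟩]
      rw [sum_sub_distrib (s := warmClusters s), sum_const, nsmul_eq_mul]
      have ha' : (a : ℝ) ≠ 0 := by exact_mod_cast ha
      have hb' : (b : ℝ) ≠ 0 := by exact_mod_cast hb
      have k3 : (a : ℝ) * -(V0 * (a : ℝ)⁻¹) + b * -(V0 * (b : ℝ)⁻¹) + c * 0 = -(2 * V0) := by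
        field_simp; ring
      have k4 : V0 * (2 + γ) = α := by rw [hV0]; field_simp
      rw [k3] at k1
      rw [hphi1] at k1 ⊢
      have k5 := mul_le_mul_of_nonneg_left hN (mul_nonneg hα.le hV00)
      nlinarith [mul_le_mul_of_nonneg_left k2 hα.le]
    · intro e he h1
      obtain ⟨q1, q2, q3⟩ := hE1 e he h1
      rw [hval, q1, q2, q3, hphi1, hphi1]
      split_ifs with h'
      · have : 0 ≤ V0 * (a : ℝ)⁻¹ := by positivity
        linarith
      · have : a = 1 := by
          by_contra h''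
          exact h' ⟨by omega, hb⟩
        simp [this]
    · intro e he h1
      obtain ⟨q1, q2, q3⟩ := hE2 e he h1
      rw [hval, q1, q2, q3, hphi1, hphi1]
      split_ifs with h'
      · have : 0 ≤ V0 * (b : ℝ)⁻¹ := by positivity
        linarith
      · have : b = 1 := by
          by_contra h''
          exact h' ⟨ha, by omega⟩
        simp [this]
    · intro e he h1
      exfalso
      have : 0 < (active G s ∩ PP p L).card := card_pos.mpr ⟨e, mem_inter.mpr ⟨he, h1⟩⟩
      omega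
  · have k1 := hsumgen (V0 * (phi γ c (a - 1) b - phi γ c a b))
      (V0 * (phi γ c a (b - 1) - phi γ c a b)) (V0 * (phi γ (c - 1) a b - phi γ c a b)) ?_ ?_ ?_
    · have k2 := phi_harm γ hc (Nat.pos_of_ne_zero ha) (Nat.pos_of_ne_zero hb)
      have k3 : 0 ≤ ∑ C ∈ warmClusters s, VV G K1 K2 p L α (s.1 ∪ C, s.2) :=
        sum_nonneg fun C hC => VV_freeze_nonneg hC
      rw [sum_sub_distrib (s := warmClusters s), sum_const, nsmul_eq_mul]
      have k4 : (a : ℝ) * (V0 * (phi γ c (a - 1) b - phi γ c a b)) +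
          b * (V0 * (phi γ c a (b - 1) - phi γ c a b)) +
          c * (V0 * (phi γ (c - 1) a b - phi γ c a b)) = V0 * γ := by
        linear_combination V0 * k2
      rw [k4] at k1
      have k5 : ((warmClusters s).card : ℝ) * (V0 * phi γ c a b) ≤ Fintype.card V * V0 := by
        calc ((warmClusters s).card : ℝ) * (V0 * phi γ c a b) ≤ (warmClusters s).card * V0 :=
              mul_le_mul_of_nonneg_left (mul_le_of_le_one_right hV00 hphi) (Nat.cast_nonneg _)
          _ ≤ _ := mul_le_mul_of_nonneg_right hN hV00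
      have k6 := mul_le_mul_of_nonneg_left k5 hα.le
      have k7 := mul_nonneg hα.le k3
      nlinarith
    · intro e he h1
      obtain ⟨q1, q2, q3⟩ := hE1 e he h1
      rw [hval, q1, q2, q3]
      split_ifs with h'
      · apply le_of_eq; ring
      · have : a - 1 = 0 := by
          by_contra h''
          exact h' ⟨h'', hb⟩
        have := mul_nonneg hV00 (neg_nonneg.mpr (phi_nonpos (b := b) hγ0 hc (Or.inl this)))
        nlinarith
    · intro e he h1
      obtain ⟨q1, q2, q3⟩ := hE2 e he h1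
      rw [hval, q1, q2, q3]
      split_ifs with h'
      · apply le_of_eq; ring
      · have : b - 1 = 0 := by
          by_contra h''
          exact h' ⟨ha, h''⟩
        have := mul_nonneg hV00 (neg_nonneg.mpr (phi_nonpos (a := a) hγ0 hc (Or.inr this)))
        nlinarith
    · intro e he h1
      obtain ⟨q1, q2, q3⟩ := hE3 e he h1
      rw [hval, q1, q2, q3, if_pos ⟨ha, hb⟩]
      apply le_of_eq; ring

theorem upper_A (h : Setup G K1 K2 p L lev) (hα : 0 < α) (h1 : (EK G K1).card ≠ 0)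
    (h2 : (EK G K2).card ≠ 0) :
    finalProb G α (evA G K1 K2) ≤ 1 - α / (2 + α * Fintype.card V) *
      phi (α * Fintype.card V) L (EK G K1).card (EK G K2).card := by
  have key := finalProb_le G hα (evA G K1 K2) (fun s => 1 - VV G K1 K2 p L α s) ?_ ?_
  · refine key.trans (le_of_eq ?_)
    have a1 : aK G K1 (∅, ∅) = (EK G K1).card := by simp [aK]
    have a2 : aK G K2 (∅, ∅) = (EK G K2).card := by simp [aK]
    have a3 : cP p L (∅, ∅) = L := by simp [cP, h.card_PP]
    show 1 - VV G K1 K2 p L α (∅, ∅) = _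
    rw [VV, if_neg fun h' => not_stuck rfl h'.1, if_pos ⟨rfl, a1 ▸ h1, a2 ▸ h2⟩, a1, a2, a3]
  · intro s _ hs
    have hne : ¬ (s.1 = ∅ ∧ aK G K1 s ≠ 0 ∧ aK G K2 s ≠ 0) := by
      rintro ⟨h', -⟩
      have : p 0 ∈ s.1 := hs ▸ mem_univ _
      rw [h'] at this
      exact notMem_empty _ this
    show _ ≤ 1 - VV G K1 K2 p L α s
    rw [VV, if_neg hne]
    by_cases hwon : stuck G K1 s ∧ stuck G K2 s
    · rw [if_pos hwon, if_neg]
      · norm_num
      · obtain ⟨⟨e1, b1, b2, -⟩, ⟨e2, b3, b4, -⟩⟩ := hwon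
        rintro (h' | h')
        · exact b2 (h' b1)
        · exact b4 (h' b3)
    · rw [if_neg hwon]
      split_ifs <;> norm_num
  · intro s _ _
    rw [gen_one_sub]
    linarith [gen_VV h hα s]

end

end Pool.Agent.MP_959d67_pr.H33
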