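import Pool.Agent.MP_959d67_pr.H33.Gadget

set_option autoImplicit false
set_option linter.unusedSectionVars false

namespace Pool.Agent.MP_959d67_pr.H33

open Classical Finset

variable {V : Type} [Fintype V]

/-- two cliques joined by a path of length `L` -/
structure Setup (G : SimpleGraph V) (K1 K2 : Finset V) (p : ℕ → V) (L : ℕ) (lev : V → ℕ) :
    Prop where
  pos : 0 < L
  c1 : ∀ x ∈ K1, ∀ y ∈ K1, x ≠ y → G.Adj x y
  c2 : ∀ x ∈ K2, ∀ y ∈ K2, x ≠ y → G.Adj x y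
  p0 : p 0 ∈ K1
  pL : p L ∈ K2
  l1 : ∀ x ∈ K1, lev x = 0
  l2 : ∀ x ∈ K2, lev x = L
  lp : ∀ i, i ≤ L → lev (p i) = i
  padj : ∀ i, i < L → G.Adj (p i) (p (i + 1))
  adj : ∀ x y, G.Adj x y → (x ∈ K1 ∧ y ∈ K1) ∨ (x ∈ K2 ∧ y ∈ K2) ∨
    ∃ i, i < L ∧ s(x, y) = s(p i, p (i + 1))

/-- path edges -/
def pe (p : ℕ → V) (i : ℕ) : Sym2 V := s(p i, p (i + 1))

/-- the set of path edges -/
noncomputable def PP (p : ℕ → V) (L : ℕ) : Finset (Sym2 V) := (range L).image (pe p)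

/-- number of closed path edges -/
noncomputable def cP (p : ℕ → V) (L : ℕ) (s : St V) : ℕ := (PP p L \ s.2).card

theorem mem_PP {p : ℕ → V} {L : ℕ} {e : Sym2 V} : e ∈ PP p L ↔ ∃ i, i < L ∧ pe p i = e := by
  simp [PP]

namespace Setup

variable {G : SimpleGraph V} {K1 K2 : Finset V} {p : ℕ → V} {L : ℕ} {lev : V → ℕ}

theorem pe_inj (h : Setup G K1 K2 p L lev) {i j : ℕ} (hi : i < L) (hj : j < L)
    (he : pe p i = pe p j) : i = j := by
  have h1 := h.lp i hi.le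
  have h2 := h.lp (i + 1) hi
  have h3 := h.lp j hj.le
  have h4 := h.lp (j + 1) hj
  rcases Sym2.eq_iff.mp he with ⟨e1, e2⟩ | ⟨e1, e2⟩
  · rw [e1] at h1; omega
  · rw [e1] at h1; rw [e2] at h2; omega

theorem card_PP (h : Setup G K1 K2 p L lev) : (PP p L).card = L := by
  rw [PP, card_image_of_injOn, card_range]
  intro i hi j hj he
  exact h.pe_inj (by simpa using hi) (by simpa using hj) he

theorem not_EK1 (h : Setup G K1 K2 p L lev) {e : Sym2 V} (he : e ∈ PP p L) : e ∉ EK G K1 := by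
  obtain ⟨i, hi, rfl⟩ := mem_PP.mp he
  intro h'
  have h1 := h.l1 _ ((mem_EK.mp h').2 (p (i + 1)) (Sym2.mem_mk_right _ _))
  have h2 := h.lp (i + 1) hi
  omega

theorem not_EK2 (h : Setup G K1 K2 p L lev) {e : Sym2 V} (he : e ∈ PP p L) : e ∉ EK G K2 := by
  obtain ⟨i, hi, rfl⟩ := mem_PP.mp he
  intro h'
  have h1 := h.l2 _ ((mem_EK.mp h').2 (p i) (Sym2.mem_mk_left _ _))
  have h2 := h.lp i hi.le
  omega

theorem not_EK12 (h : Setup G K1 K2 p L lev) {e : Sym2 V} (he : e ∈ EK G K1) : e ∉ EK G K2 := by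
  intro h'
  induction e using Sym2.ind with
  | h x y =>
    have h1 := h.l1 _ ((mem_EK.mp he).2 x (Sym2.mem_mk_left _ _))
    have h2 := h.l2 _ ((mem_EK.mp h').2 x (Sym2.mem_mk_left _ _))
    have := h.pos
    omega

theorem edge_cases (h : Setup G K1 K2 p L lev) {e : Sym2 V} (he : e ∈ G.edgeSet) :
    e ∈ EK G K1 ∨ e ∈ EK G K2 ∨ e ∈ PP p L := by
  induction e using Sym2.ind with
  | h x y =>
    have hne : x ≠ y := G.ne_of_adj he
    rcases h.adj x y he with ⟨h1, h2⟩ | ⟨h1, h2⟩ | ⟨i, hi, h1⟩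
    · exact Or.inl (mk_mem_EK h.c1 h1 h2 hne)
    · exact Or.inr (Or.inl (mk_mem_EK h.c2 h1 h2 hne))
    · exact Or.inr (Or.inr (mem_PP.mpr ⟨i, hi, h1.symm⟩))

theorem cluster_ind {ω : Finset (Sym2 V)} {x : V} (Q : V → Prop) (h0 : Q x)
    (hs : ∀ z y, z ∈ cluster ω x → Q z → s(z, y) ∈ ω → Q y) : ∀ y ∈ cluster ω x, Q y := by
  intro y hy
  rw [mem_cluster, SimpleGraph.reachable_iff_reflTransGen] at hy
  induction hy with
  | refl => exact h0
  | tail hz hzy ih =>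
    refine hs _ _ ?_ ih ?_
    · rw [mem_cluster, SimpleGraph.reachable_iff_reflTransGen]; exact hz
    · exact_mod_cast ((SimpleGraph.fromEdgeSet_adj _).mp hzy).1

theorem barrier (h : Setup G K1 K2 p L lev) {ω : Finset (Sym2 V)}
    (hω : (ω : Set (Sym2 V)) ⊆ G.edgeSet) {i : ℕ} (hi : i < L) (hc : pe p i ∉ ω) {x : V}
    (hx : lev x ≤ i) : ∀ y ∈ cluster ω x, lev y ≤ i := by
  refine cluster_ind (fun y => lev y ≤ i) hx fun z y _ hz hzy => ?_
  rcases h.adj z y (hω hzy) with ⟨-, h2⟩ | ⟨h1, -⟩ | ⟨j, hj, h1⟩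
  · rw [h.l1 y h2]; exact Nat.zero_le _
  · rw [h.l2 z h1] at hz; omega
  · have hji : j ≠ i := by
      rintro rfl
      exact hc (by rw [pe, ← h1]; exact hzy)
    have h3 := h.lp j hj.le
    have h4 := h.lp (j + 1) hj
    rcases Sym2.eq_iff.mp h1 with ⟨e1, e2⟩ | ⟨e1, e2⟩
    · rw [e1] at hz; rw [e2]; omega
    · rw [e1] at hz; rw [e2]; omega

theorem exit (h : Setup G K1 K2 p L lev) {ω : Finset (Sym2 V)}
    (hω : (ω : Set (Sym2 V)) ⊆ G.edgeSet) {x : V} (hx : x ∈ K1) :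
    ∀ y ∈ cluster ω x, y ∈ K1 ∨ p 0 ∈ cluster ω x := by
  refine cluster_ind (fun y => y ∈ K1 ∨ p 0 ∈ cluster ω x) (Or.inl hx) fun z y hzc hz hzy => ?_
  rcases hz with hz | hz
  swap
  · exact Or.inr hz
  have h0 := h.l1 z hz
  rcases h.adj z y (hω hzy) with ⟨-, h2⟩ | ⟨h1, -⟩ | ⟨j, hj, h1⟩
  · exact Or.inl h2
  · have := h.l2 z h1
    have := h.pos
    omega
  · have h3 := h.lp j hj.le
    have h4 := h.lp (j + 1) hj
    rcases Sym2.eq_iff.mp h1 with ⟨e1, e2⟩ | ⟨e1, e2⟩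
    · rw [e1] at h0
      have : j = 0 := by omega
      subst this
      exact Or.inr (e1 ▸ hzc)
    · rw [e1] at h0; omega

theorem both (h : Setup G K1 K2 p L lev) {s : St V} (hω : (s.2 : Set (Sym2 V)) ⊆ G.edgeSet)
    {v x y : V} (hx : x ∈ K1) (hy : y ∈ K2) (hxv : x ∈ cluster s.2 v) (hyv : y ∈ cluster s.2 v) :
    cluster s.2 v = cluster s.2 (p 0) ∧ cP p L s = 0 := by
  have hyx : y ∈ cluster s.2 x := by rw [cluster_eq_of_mem hxv]; exact hyv
  constructor
  · rcases h.exit hω hx y hyx with h1 | h1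
    · have := h.l1 y h1
      have := h.l2 y hy
      have := h.pos
      omega
    · rw [cluster_eq_of_mem h1, cluster_eq_of_mem hxv]
  · rw [cP, card_eq_zero, sdiff_eq_empty_iff_subset]
    intro e he
    obtain ⟨i, hi, rfl⟩ := mem_PP.mp he
    by_contra hc
    have h1 := h.barrier hω hi hc (x := x) (by rw [h.l1 x hx]; exact Nat.zero_le _) y hyx
    rw [h.l2 y hy] at h1
    omega

end Setup

/-- the path potential -/
noncomputable def piP (p : ℕ → V) (L : ℕ) (β : ℝ) (s : St V) : ℝ :=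
  if ∃ i, i < L ∧ pe p i ∉ s.2 ∧ p i ∈ s.1 then 0 else (1 + β)⁻¹ ^ cP p L s

section

variable {G : SimpleGraph V} {K1 K2 : Finset V} {p : ℕ → V} {L : ℕ} {lev : V → ℕ} {β : ℝ}

theorem piP_nonneg (hβ : 0 ≤ β) (s : St V) : 0 ≤ piP p L β s := by
  unfold piP
  split_ifs
  · exact le_rfl
  · positivity

theorem piP_edge_not (s : St V) {e : Sym2 V} (he : e ∉ PP p L) :
    piP p L β (s.1, insert e s.2) = piP p L β s := by
  have h1 : cP p L (s.1, insert e s.2) = cP p L s := by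
    unfold cP; rw [sdiff_insert_of_notMem' he]
  unfold piP
  rw [h1]
  congr 1
  apply propext
  constructor
  · rintro ⟨i, hi, h2, h3⟩
    exact ⟨i, hi, fun h => h2 (mem_insert_of_mem h), h3⟩
  · rintro ⟨i, hi, h2, h3⟩
    refine ⟨i, hi, fun h => ?_, h3⟩
    rcases mem_insert.mp h with h | h
    · exact he (mem_PP.mpr ⟨i, hi, h⟩)
    · exact h2 h

theorem piP_edge (hβ : 0 ≤ β) (s : St V) {e : Sym2 V} (ha : e ∈ active G s) (he : e ∈ PP p L) :
    piP p L β (s.1, insert e s.2) ≤ (1 + β) * piP p L β s := by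
  rw [mem_active] at ha
  by_cases hd : ∃ i, i < L ∧ pe p i ∉ s.2 ∧ p i ∈ s.1
  · have : ∃ i, i < L ∧ pe p i ∉ (s.1, insert e s.2).2 ∧ p i ∈ (s.1, insert e s.2).1 := by
      obtain ⟨i, hi, h2, h3⟩ := hd
      refine ⟨i, hi, fun h => ?_, h3⟩
      rcases mem_insert.mp h with h | h
      · exact ha.2.2 (p i) (h ▸ Sym2.mem_mk_left _ _) h3
      · exact h2 h
    rw [piP, piP, if_pos hd, if_pos this, mul_zero]
  · have h1 : cP p L (s.1, insert e s.2) = cP p L s - 1 := card_sdiff_insert he ha.2.1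
    have h2 : 0 < cP p L s := card_pos.mpr ⟨e, mem_sdiff.mpr ⟨he, ha.2.1⟩⟩
    have h3 : (1 + β)⁻¹ ^ (cP p L s - 1) = (1 + β) * (1 + β)⁻¹ ^ cP p L s := by
      obtain ⟨k, hk⟩ : ∃ k, cP p L s = k + 1 := ⟨cP p L s - 1, by omega⟩
      rw [hk, Nat.add_sub_cancel, pow_succ]
      field_simp
    conv_rhs => rw [piP, if_neg hd, ← h3]
    rw [piP, h1]
    split_ifs
    · positivity
    · exact le_rfl

theorem piP_freeze (h : Setup G K1 K2 p L lev) (hβ : 0 ≤ β) (s : St V)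
    (hω : (s.2 : Set (Sym2 V)) ⊆ G.edgeSet) :
    ∑ C ∈ warmClusters s, (piP p L β (s.1 ∪ C, s.2) - piP p L β s) ≤
      -(cP p L s * piP p L β s) := by
  by_cases hd : ∃ i, i < L ∧ pe p i ∉ s.2 ∧ p i ∈ s.1
  · have h0 : piP p L β s = 0 := by rw [piP, if_pos hd]
    rw [h0, mul_zero, neg_zero]
    refine sum_nonpos fun C _ => ?_
    have : ∃ i, i < L ∧ pe p i ∉ (s.1 ∪ C, s.2).2 ∧ p i ∈ (s.1 ∪ C, s.2).1 := by
      obtain ⟨i, hi, h2, h3⟩ := hd
      exact ⟨i, hi, h2, mem_union_left _ h3⟩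
    rw [piP, if_pos this, sub_self]
  · let J : Finset ℕ := (range L).filter fun i => pe p i ∉ s.2
    have hJ : ∀ i, i ∈ J ↔ i < L ∧ pe p i ∉ s.2 := fun i => by simp [J]
    have hJc : cP p L s ≤ J.card := by
      refine le_trans (card_le_card ?_) (card_image_le (f := pe p))
      intro e he
      obtain ⟨he1, he2⟩ := mem_sdiff.mp he
      obtain ⟨i, hi, rfl⟩ := mem_PP.mp he1
      exact mem_image_of_mem _ ((hJ i).mpr ⟨hi, he2⟩)
    let Y : Finset (Finset V) := J.image fun i => cluster s.2 (p i)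
    have hYc : Y.card = J.card := by
      apply card_image_of_injOn
      have key : ∀ i ∈ J, ∀ j ∈ J, cluster s.2 (p i) = cluster s.2 (p j) → j ≤ i := by
        intro i hi j hj he
        have h1 := h.barrier hω ((hJ i).mp hi).1 ((hJ i).mp hi).2 (x := p i)
          (h.lp i ((hJ i).mp hi).1.le).le (p j) (he ▸ self_mem_cluster _ _)
        rwa [h.lp j ((hJ j).mp hj).1.le] at h1
      intro i hi j hj he
      exact le_antisymm (key j hj i hi he.symm) (key i hi j hj he)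
    have hYsub : Y ⊆ warmClusters s := by
      intro C hC
      obtain ⟨i, hi, rfl⟩ := mem_image.mp hC
      exact mem_warmClusters.mpr ⟨p i, fun h' => hd ⟨i, ((hJ i).mp hi).1, ((hJ i).mp hi).2, h'⟩, rfl⟩
    have h2 : ∀ C ∈ warmClusters s, piP p L β (s.1 ∪ C, s.2) - piP p L β s ≤
        if C ∈ Y then -piP p L β s else 0 := by
      intro C _
      split_ifs with hCY
      · obtain ⟨i, hi, rfl⟩ := mem_image.mp hCY
        have : ∃ j, j < L ∧ pe p j ∉ (s.1 ∪ cluster s.2 (p i), s.2).2 ∧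
            p j ∈ (s.1 ∪ cluster s.2 (p i), s.2).1 :=
          ⟨i, ((hJ i).mp hi).1, ((hJ i).mp hi).2, mem_union_right _ (self_mem_cluster _ _)⟩
        rw [piP, if_pos this, zero_sub]
      · have e1 : cP p L (s.1 ∪ C, s.2) = cP p L s := rfl
        rw [sub_nonpos]
        conv_rhs => rw [piP, if_neg hd]
        rw [piP, e1]
        split_ifs
        · positivity
        · exact le_rfl
    refine (sum_le_sum h2).trans ?_
    rw [sum_ite_mem, inter_eq_right.mpr hYsub, sum_const, hYc, nsmul_eq_mul]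
    have h3 : (cP p L s : ℝ) ≤ J.card := by exact_mod_cast hJc
    nlinarith [piP_nonneg (p := p) (L := L) hβ s]

/-- the correction term -/
noncomputable def RR (G : SimpleGraph V) (K1 : Finset V) (p : ℕ → V) (L : ℕ) (β : ℝ)
    (s : St V) : ℝ := β * Hn (aK G K1 s) * piP p L β s

theorem gen_RR (h : Setup G K1 K2 p L lev) (hβ : 0 ≤ β) (s : St V)
    (hω : (s.2 : Set (Sym2 V)) ⊆ G.edgeSet) :
    gen G β (RR G K1 p L β) s ≤
      -(β * if aK G K1 s ≠ 0 ∧ (∀ v ∈ K1, v ∉ s.1) ∧ cP p L s = 0 then 1 else 0) := by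
  have hπ := piP_nonneg (p := p) (L := L) hβ s
  have hH := Hn_nonneg (aK G K1 s)
  have h1 : ∀ e ∈ active G s, RR G K1 p L β (s.1, insert e s.2) - RR G K1 p L β s ≤
      (if e ∈ EK G K1 then -(β * piP p L β s * (aK G K1 s : ℝ)⁻¹) else 0) +
      (if e ∈ PP p L then β * Hn (aK G K1 s) * (β * piP p L β s) else 0) := by
    intro e he
    have he' := mem_active.mp he
    unfold RR
    by_cases hP : e ∈ PP p L
    · have h2 : aK G K1 (s.1, insert e s.2) = aK G K1 s := by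
        unfold aK; rw [sdiff_insert_of_notMem' (h.not_EK1 hP)]
      rw [if_neg (h.not_EK1 hP), if_pos hP, h2]
      have := mul_le_mul_of_nonneg_left (piP_edge hβ s he hP) (mul_nonneg hβ hH)
      nlinarith
    · rw [if_neg hP, piP_edge_not s hP]
      by_cases hE : e ∈ EK G K1
      · have h2 : aK G K1 (s.1, insert e s.2) = aK G K1 s - 1 := card_sdiff_insert hE he'.2.1
        have h3 : 0 < aK G K1 s := card_pos.mpr ⟨e, mem_sdiff.mpr ⟨hE, he'.2.1⟩⟩
        have h4 := Hn_pred h3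
        rw [if_pos hE, h2]
        have : Hn (aK G K1 s - 1) = Hn (aK G K1 s) - (aK G K1 s : ℝ)⁻¹ := by linarith
        rw [this]
        apply le_of_eq
        ring
      · have h2 : aK G K1 (s.1, insert e s.2) = aK G K1 s := by
          unfold aK; rw [sdiff_insert_of_notMem' hE]
        rw [if_neg hE, h2]
        simp
  have h2 : ∑ C ∈ warmClusters s, (RR G K1 p L β (s.1 ∪ C, s.2) - RR G K1 p L β s) ≤
      β * Hn (aK G K1 s) * -(cP p L s * piP p L β s) := by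
    refine le_trans (le_of_eq ?_) (mul_le_mul_of_nonneg_left (piP_freeze h hβ s hω)
      (mul_nonneg hβ hH))
    rw [mul_sum]
    refine sum_congr rfl fun C _ => ?_
    have : aK G K1 (s.1 ∪ C, s.2) = aK G K1 s := rfl
    unfold RR
    rw [this]
    ring
  have h3 := sum_le_sum h1
  rw [sum_add_distrib, sum_ite_mem, sum_ite_mem, sum_const, sum_const, nsmul_eq_mul,
    nsmul_eq_mul] at h3
  have h4 : ((active G s ∩ PP p L).card : ℝ) ≤ cP p L s := by
    have : active G s ∩ PP p L ⊆ PP p L \ s.2 := fun e he =>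
      mem_sdiff.mpr ⟨(mem_inter.mp he).2, (mem_active.mp (mem_inter.mp he).1).2.1⟩
    exact_mod_cast card_le_card this
  have h5 : 0 ≤ β * Hn (aK G K1 s) * (β * piP p L β s) := by positivity
  have h6 := mul_le_mul_of_nonneg_right h4 h5
  have h7 := mul_le_mul_of_nonneg_left h2 hβ
  have h8 : ((active G s ∩ EK G K1).card : ℝ) * -(β * piP p L β s * (aK G K1 s : ℝ)⁻¹) ≤
      -(β * if aK G K1 s ≠ 0 ∧ (∀ v ∈ K1, v ∉ s.1) ∧ cP p L s = 0 then 1 else 0) := by
    split_ifs with hc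
    · obtain ⟨ha, hw, hc⟩ := hc
      rw [active_inter_EK s hw]
      have e1 : (EK G K1 \ s.2).card = aK G K1 s := rfl
      have e2 : piP p L β s = 1 := by
        rw [piP, if_neg, hc, pow_zero]
        rintro ⟨i, hi, h', -⟩
        rw [cP, card_eq_zero, sdiff_eq_empty_iff_subset] at hc
        exact h' (hc (mem_PP.mpr ⟨i, hi, rfl⟩))
      have ha' : (aK G K1 s : ℝ) ≠ 0 := by exact_mod_cast ha
      rw [e1, e2]
      apply le_of_eq
      field_simp
    · have : 0 ≤ ((active G s ∩ EK G K1).card : ℝ) * (β * piP p L β s * (aK G K1 s : ℝ)⁻¹) := by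
        positivity
      linarith
  unfold gen
  nlinarith

theorem gen_prod (h : Setup G K1 K2 p L lev) (hβ : 0 ≤ β)
    (h1 : β * (Hn (EK G K1).card + Hn K1.card) ≤ 1) (h2 : β * (Hn (EK G K2).card + Hn K2.card) ≤ 1)
    (s : St V) (hω : (s.2 : Set (Sym2 V)) ⊆ G.edgeSet) :
    gen G β (fun s => ww G K1 (p 0) β s * ww G K2 (p L) β s) s ≤
      β * if aK G K1 s ≠ 0 ∧ (∀ v ∈ K1, v ∉ s.1) ∧ cP p L s = 0 then 1 else 0 := by
  set w1 := ww G K1 (p 0) β with hw1
  set w2 := ww G K2 (p L) β with hw2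
  have n1 : ∀ t, 0 ≤ w1 t := ww_nonneg hβ
  have n2 : ∀ t, 0 ≤ w2 t := ww_nonneg hβ
  have o1 : ∀ t, w1 t ≤ 1 := ww_le_one hβ h1
  have o2 : ∀ t, w2 t ≤ 1 := ww_le_one hβ h2
  have s1 := ww_super hβ h1 h.c1 h.p0 s
  have s2 := ww_super hβ h2 h.c2 h.pL s
  have e1 : ∀ e ∈ active G s, w1 (s.1, insert e s.2) * w2 (s.1, insert e s.2) - w1 s * w2 s ≤
      (if e ∈ EK G K1 then w2 s * (w1 (s.1, insert e s.2) - w1 s) else 0) +
      (if e ∈ EK G K2 then w1 s * (w2 (s.1, insert e s.2) - w2 s) else 0) := by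
    intro e _
    have a1 : w1 (s.1, insert e s.2) ≤ w1 s := ww_edge_le hβ s e
    have a2 : w2 (s.1, insert e s.2) ≤ w2 s := ww_edge_le hβ s e
    have b1 := n1 (s.1, insert e s.2)
    have b2 := n2 (s.1, insert e s.2)
    by_cases hE : e ∈ EK G K1
    · rw [if_pos hE, if_neg (h.not_EK12 hE)]
      nlinarith [mul_le_mul_of_nonneg_left a2 b1]
    · rw [if_neg hE]
      split_ifs
      · nlinarith [mul_le_mul_of_nonneg_left a1 b2]
      · nlinarith [mul_le_mul a1 a2 b2 (n1 s)]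
  have e2 : ∀ C ∈ warmClusters s, w1 (s.1 ∪ C, s.2) * w2 (s.1 ∪ C, s.2) - w1 s * w2 s ≤
      w2 s * (w1 (s.1 ∪ C, s.2) - w1 s) + w1 s * (w2 (s.1 ∪ C, s.2) - w2 s) +
      if C ∈ ({cluster s.2 (p 0)} : Finset (Finset V)) then
        (if aK G K1 s ≠ 0 ∧ (∀ v ∈ K1, v ∉ s.1) ∧ cP p L s = 0 then 1 else 0) else 0 := by
    intro C hC
    have key : (w1 (s.1 ∪ C, s.2) - w1 s) * (w2 (s.1 ∪ C, s.2) - w2 s) ≤
        if C ∈ ({cluster s.2 (p 0)} : Finset (Finset V)) then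
        (if aK G K1 s ≠ 0 ∧ (∀ v ∈ K1, v ∉ s.1) ∧ cP p L s = 0 then 1 else 0) else 0 := by
      have hnn : (0 : ℝ) ≤ if C ∈ ({cluster s.2 (p 0)} : Finset (Finset V)) then
          (if aK G K1 s ≠ 0 ∧ (∀ v ∈ K1, v ∉ s.1) ∧ cP p L s = 0 then 1 else 0) else 0 := by
        split_ifs <;> norm_num
      by_cases c1 : aK G K1 s ≠ 0 ∧ (∀ v ∈ K1, v ∉ s.1) ∧ ∃ v ∈ K1, v ∈ C
      swap
      · rw [hw1, ww_freeze_eq s C c1, sub_self, zero_mul]; exact hnn
      by_cases c2 : aK G K2 s ≠ 0 ∧ (∀ v ∈ K2, v ∉ s.1) ∧ ∃ v ∈ K2, v ∈ C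
      swap
      · rw [hw2, ww_freeze_eq s C c2, sub_self, mul_zero]; exact hnn
      obtain ⟨v, -, rfl⟩ := mem_warmClusters.mp hC
      obtain ⟨a1, b1, x, hx, hxv⟩ := c1
      obtain ⟨-, -, y, hy, hyv⟩ := c2
      obtain ⟨q1, q2⟩ := h.both hω hx hy hxv hyv
      rw [if_pos (mem_singleton.mpr q1), if_pos ⟨a1, b1, q2⟩]
      have r1 : |w1 (s.1 ∪ cluster s.2 v, s.2) - w1 s| ≤ 1 := by
        rw [abs_le]
        constructor <;> linarith [n1 s, o1 s, n1 (s.1 ∪ cluster s.2 v, s.2),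
          o1 (s.1 ∪ cluster s.2 v, s.2)]
      have r2 : |w2 (s.1 ∪ cluster s.2 v, s.2) - w2 s| ≤ 1 := by
        rw [abs_le]
        constructor <;> linarith [n2 s, o2 s, n2 (s.1 ∪ cluster s.2 v, s.2),
          o2 (s.1 ∪ cluster s.2 v, s.2)]
      refine (le_abs_self _).trans ?_
      rw [abs_mul]
      exact mul_le_one₀ r1 (abs_nonneg _) r2
    nlinarith
  have f1 := sum_le_sum e1
  have f2 := sum_le_sum e2
  rw [sum_add_distrib, sum_ite_mem, sum_ite_mem, ← mul_sum, ← mul_sum] at f1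
  rw [sum_add_distrib, sum_add_distrib, sum_ite_mem, ← mul_sum, ← mul_sum, sum_const,
    nsmul_eq_mul] at f2
  have f3 : ((warmClusters s ∩ {cluster s.2 (p 0)}).card : ℝ) ≤ 1 := by
    have := card_le_card (inter_subset_right (s₁ := warmClusters s) (s₂ := {cluster s.2 (p 0)}))
    rw [card_singleton] at this
    exact_mod_cast this
  have f4 : (0 : ℝ) ≤ if aK G K1 s ≠ 0 ∧ (∀ v ∈ K1, v ∉ s.1) ∧ cP p L s = 0 then 1 else 0 := by
    split_ifs <;> norm_num
  have f5 := mul_le_mul_of_nonneg_right f3 f4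
  have f6 := mul_le_mul_of_nonneg_left f2 hβ
  have f7 := mul_le_mul_of_nonneg_left s1 (n2 s)
  have f8 := mul_le_mul_of_nonneg_left s2 (n1 s)
  have f9 := mul_le_mul_of_nonneg_left f5 hβ
  unfold gen
  nlinarith

/-- the increasing event: one of the two cliques is fully open -/
def evA (G : SimpleGraph V) (K1 K2 : Finset V) : Set (Finset (Sym2 V)) :=
  {ω | EK G K1 ⊆ ω ∨ EK G K2 ⊆ ω}

theorem evA_upper : IsUpperSet (evA G K1 K2) := by
  intro ω ω' hle h
  rcases h with h | h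
  · exact Or.inl (h.trans hle)
  · exact Or.inr (h.trans hle)

theorem gen_add (α : ℝ) (f g : St V → ℝ) (s : St V) :
    gen G α (fun s => f s + g s) s = gen G α f s + gen G α g s := by
  unfold gen
  simp only [sum_sub_distrib, sum_add_distrib, sum_const, nsmul_eq_mul]
  ring

theorem lower_A (h : Setup G K1 K2 p L lev) (hβ : 0 < β) {B : ℝ} (hB : B ≤ 1)
    (h1 : β * (Hn (EK G K1).card + Hn K1.card) ≤ B) (h2 : β * (Hn (EK G K2).card + Hn K2.card) ≤ B) :
    1 - (B * B + β * Hn (EK G K1).card * (1 + β)⁻¹ ^ L) ≤ finalProb G β (evA G K1 K2) := by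
  have key := le_finalProb G hβ (evA G K1 K2)
    (fun s => 1 - (ww G K1 (p 0) β s * ww G K2 (p L) β s + RR G K1 p L β s)) ?_ ?_
  · refine le_trans ?_ key
    have a1 : ww G K1 (p 0) β (∅, ∅) ≤ B :=
      ((ww_le_wf hβ.le _ (by simp)).trans (wf_le hβ.le _)).trans h1
    have a2 : ww G K2 (p L) β (∅, ∅) ≤ B :=
      ((ww_le_wf hβ.le _ (by simp)).trans (wf_le hβ.le _)).trans h2
    have a3 := mul_le_mul a1 a2 (ww_nonneg hβ.le _) ((ww_nonneg hβ.le _).trans a1)
    have a4 : RR G K1 p L β (∅, ∅) = β * Hn (EK G K1).card * (1 + β)⁻¹ ^ L := by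
      simp [RR, piP, aK, cP, h.card_PP]
    linarith
  · intro s _ hs
    have hR : 0 ≤ RR G K1 p L β s :=
      mul_nonneg (mul_nonneg hβ.le (Hn_nonneg _)) (piP_nonneg hβ.le s)
    split_ifs with hA
    · have := mul_nonneg (ww_nonneg (G := G) (K := K1) (u := p 0) hβ.le s)
        (ww_nonneg (G := G) (K := K2) (u := p L) hβ.le s)
      linarith
    · simp only [evA, Set.mem_ofPred_eq, not_or] at hA
      have b1 : ww G K1 (p 0) β s = 1 := by
        rw [ww, if_neg, if_neg]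
        · intro h'; exact h' _ h.p0 (hs ▸ mem_univ _)
        · rw [aK, card_eq_zero, sdiff_eq_empty_iff_subset]; exact hA.1
      have b2 : ww G K2 (p L) β s = 1 := by
        rw [ww, if_neg, if_neg]
        · intro h'; exact h' _ h.pL (hs ▸ mem_univ _)
        · rw [aK, card_eq_zero, sdiff_eq_empty_iff_subset]; exact hA.2
      rw [b1, b2]
      linarith
  · intro s hω _
    rw [gen_one_sub G β (fun s => ww G K1 (p 0) β s * ww G K2 (p L) β s + RR G K1 p L β s),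
      gen_add]
    have := gen_prod h hβ.le (h1.trans hB) (h2.trans hB) s hω
    have := gen_RR h hβ.le s hω
    linarith

end

end Pool.Agent.MP_959d67_pr.H33
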